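import Mathlib

/-!
Gap principle for `D(n)`-quadruples with `n` not a perfect square.

If `n` is not a perfect square then all but finitely many `D(n)`-quadruples `a < b < c < d`
satisfy `1152 n ^ 4 d ≥ a ^ 2 c ^ 3`.
-/

namespace Pool.Agent.Results.MP_603295_nt.CubicGap

/-- `{a, b, c, d}` with `0 < a < b < c < d` is a `D(n)`-quadruple -/
def DQuadruple (n : ℤ) (a b c d : ℕ) : Prop :=
  0 < a ∧ a < b ∧ b < c ∧ c < d ∧
    IsSquare ((a : ℤ) * b + n) ∧ IsSquare ((a : ℤ) * c + n) ∧ IsSquare ((a : ℤ) * d + n) ∧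
    IsSquare ((b : ℤ) * c + n) ∧ IsSquare ((b : ℤ) * d + n) ∧ IsSquare ((c : ℤ) * d + n)

theorem root {m : ℤ} (h : IsSquare m) : ∃ r : ℤ, 0 ≤ r ∧ r ^ 2 = m := by
  obtain ⟨r, hr⟩ := h
  exact ⟨|r|, abs_nonneg r, by rw [sq_abs, hr, sq]⟩

/-- the classical gap for a triple that is not of the form `b + c ± 2 √(b c + n)` -/
theorem nonreg (n N b c d y w v : ℤ) (hN : N = |n|) (hn : n ≠ 0) (hb : 0 < b) (hbc : b < c)
    (hcd : c < d) (hy0 : 0 ≤ y) (hw0 : 0 ≤ w) (hv0 : 0 ≤ v)
    (hy : y ^ 2 = b * c + n) (hw : w ^ 2 = b * d + n) (hv : v ^ 2 = c * d + n)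
    (hc : 5 * N ^ 2 < c) (hreg : (d - b - c) ^ 2 ≠ 4 * y ^ 2) : b * c ≤ N ^ 2 * d := by
  have hN1 : 1 ≤ N := by rw [hN]; exact Int.one_le_abs hn
  have hnN : n ≤ N := by rw [hN]; exact le_abs_self n
  have hnN' : -N ≤ n := by rw [hN]; exact neg_abs_le n
  have hNsq : N ^ 2 = n ^ 2 := by rw [hN, sq_abs]
  have hNN : N ≤ N ^ 2 := by nlinarith
  have hc0 : 0 < c := by linarith
  have hd00 : 0 < d := by linarith
  have hbc1 : c ≤ b * c := by nlinarith
  have hbcN : 5 * N < b * c := by linarith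
  set F1 : ℤ := n * (b + c + d) + 2 * b * c * d - 2 * (y * w * v) with hF1
  set F2 : ℤ := n * (b + c + d) + 2 * b * c * d + 2 * (y * w * v) with hF2
  have hprod : F1 * F2 = N ^ 2 * ((d - b - c) ^ 2 - 4 * y ^ 2) := by
    have e1 : F1 * F2 = (n * (b + c + d) + 2 * b * c * d) ^ 2 - 4 * (y ^ 2 * w ^ 2 * v ^ 2) := by
      rw [hF1, hF2]; ring
    rw [e1, hNsq, hy, hw, hv]
    ring
  have hF1ne : F1 ≠ 0 := by
    intro h0
    rw [h0, zero_mul] at hprod
    have h1 : N ^ 2 ≠ 0 := by positivity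
    rcases mul_eq_zero.mp hprod.symm with h2 | h2
    · exact h1 h2
    · exact hreg (by linarith)
  have hF2low : b * c * d ≤ F2 := by
    have h1 : 0 ≤ y * w * v := by positivity
    have h2 : -(3 * N * d) ≤ n * (b + c + d) := by
      have h3 : -N * (b + c + d) ≤ n * (b + c + d) :=
        mul_le_mul_of_nonneg_right hnN' (by linarith)
      have h4 : N * (b + c + d) ≤ N * (3 * d) := mul_le_mul_of_nonneg_left (by linarith) (by linarith)
      linarith
    have h5 : 3 * N * d ≤ b * c * d := mul_le_mul_of_nonneg_right (by linarith) (by linarith)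
    rw [hF2]
    linarith
  have hF2pos : 0 < F2 := by
    have : 0 < b * c * d := by positivity
    linarith
  have habs : F2 ≤ N ^ 2 * |(d - b - c) ^ 2 - 4 * y ^ 2| := by
    have h1 : |F1 * F2| = N ^ 2 * |(d - b - c) ^ 2 - 4 * y ^ 2| := by
      rw [hprod, abs_mul, abs_of_nonneg (by positivity : (0:ℤ) ≤ N ^ 2)]
    rw [← h1, abs_mul, abs_of_pos hF2pos]
    have h2 : 1 ≤ |F1| := Int.one_le_abs hF1ne
    nlinarith
  have hd : 0 < d := by linarith
  rcases le_total (4 * y ^ 2) ((d - b - c) ^ 2) with h | h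
  · have h1 : |(d - b - c) ^ 2 - 4 * y ^ 2| ≤ d ^ 2 := by
      rw [abs_of_nonneg (by linarith)]
      have h2 : (d - b - c) ^ 2 ≤ d ^ 2 := by
        apply sq_le_sq'
        · linarith
        · linarith
      nlinarith [sq_nonneg y]
    have h3 : b * c * d ≤ N ^ 2 * d * d := by
      calc b * c * d ≤ F2 := hF2low
        _ ≤ N ^ 2 * |(d - b - c) ^ 2 - 4 * y ^ 2| := habs
        _ ≤ N ^ 2 * d ^ 2 := mul_le_mul_of_nonneg_left h1 (by positivity)
        _ = N ^ 2 * d * d := by ring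
    exact le_of_mul_le_mul_right h3 hd
  · exfalso
    have h1 : |(d - b - c) ^ 2 - 4 * y ^ 2| ≤ 5 * (b * c) := by
      rw [abs_of_nonpos (by linarith)]
      nlinarith [sq_nonneg (d - b - c)]
    have h3 : d * (b * c) ≤ 5 * N ^ 2 * (b * c) := by
      calc d * (b * c) = b * c * d := by ring
        _ ≤ F2 := hF2low
        _ ≤ N ^ 2 * |(d - b - c) ^ 2 - 4 * y ^ 2| := habs
        _ ≤ N ^ 2 * (5 * (b * c)) := mul_le_mul_of_nonneg_left h1 (by positivity)
        _ = 5 * N ^ 2 * (b * c) := by ring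
    have h4 : d ≤ 5 * N ^ 2 := le_of_mul_le_mul_right h3 (by positivity)
    linarith

/-- if `{b, c, d}` is of the form `d = b + c ± 2 √(b c + n)` then `b` is bounded -/
theorem reg (n N a b c d r x y z : ℤ) (hN : N = |n|) (hn : n ≠ 0) (ha : 0 < a) (hab : a < b)
    (hbc : b < c) (hcd : c < d) (hr0 : 0 ≤ r) (hx0 : 0 ≤ x) (hy0 : 0 ≤ y) (hz0 : 0 ≤ z)
    (hr : r ^ 2 = a * b + n) (hx : x ^ 2 = a * c + n) (hy : y ^ 2 = b * c + n)
    (hz : z ^ 2 = a * d + n)
    (hc : 8 * N ^ 2 < c) (hreg : (d - b - c) ^ 2 = 4 * y ^ 2) : b < 576 * N ^ 2 := by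
  have hN1 : 1 ≤ N := by rw [hN]; exact Int.one_le_abs hn
  have hnN : n ≤ N := by rw [hN]; exact le_abs_self n
  have hnN' : -N ≤ n := by rw [hN]; exact neg_abs_le n
  have hNN : N ≤ N ^ 2 := by nlinarith
  have hcN : 8 * N < c := by linarith
  have hb : 0 < b := by linarith
  have hc0 : 0 < c := by linarith
  -- d = b + c + 2y
  have hdy : d = b + c + 2 * y := by
    have h1 : (d - b - c - 2 * y) * (d - b - c + 2 * y) = 0 := by
      have : (d - b - c - 2 * y) * (d - b - c + 2 * y) = (d - b - c) ^ 2 - 4 * y ^ 2 := by ring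
      rw [this, hreg]; ring
    rcases mul_eq_zero.mp h1 with h2 | h2
    · linarith
    · exfalso
      have h3 : 2 * y < b := by linarith
      have h4 : (2 * y) ^ 2 < b ^ 2 := pow_lt_pow_left₀ h3 (by linarith) (by norm_num)
      have h5 : 4 * (b * c) + 4 * n < b ^ 2 := by
        have e1 : (2 * y) ^ 2 = 4 * y ^ 2 := by ring
        rw [e1, hy] at h4
        linarith
      have h6 : 1 * c ≤ b * c := mul_le_mul_of_nonneg_right (by linarith) hc0.le
      have h7 : b * b ≤ b * c := mul_le_mul_of_nonneg_left hbc.le hb.le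
      have e2 : b ^ 2 = b * b := sq b
      linarith
  set P : ℤ := a * y - r * x with hP
  have hprod : P * (a * y + r * x) = n * (a ^ 2 - a * b - a * c - n) := by
    have e1 : P * (a * y + r * x) = a ^ 2 * y ^ 2 - r ^ 2 * x ^ 2 := by rw [hP]; ring
    rw [e1, hy, hr, hx]; ring
  have hT : z ^ 2 - (r + x) ^ 2 = 2 * P - n := by
    have e1 : (r + x) ^ 2 = r ^ 2 + x ^ 2 + 2 * (r * x) := by ring
    rw [hz, e1, hr, hx, hdy, hP]
    ring
  have hac : c ≤ a * c := by nlinarith
  have haab : a ^ 2 ≤ a * b := by nlinarith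
  by_contra hbig
  push Not at hbig
  have hx2 : c ≤ 2 * x ^ 2 := by rw [hx]; linarith
  by_cases hzr : z = r + x
  · have h1 : 2 * P = n := by
      have : z ^ 2 - (r + x) ^ 2 = 0 := by rw [hzr]; ring
      linarith
    have h2 : n * (a * y + r * x) = n * (2 * (a ^ 2 - a * b - a * c - n)) := by
      calc n * (a * y + r * x) = 2 * P * (a * y + r * x) := by rw [h1]
        _ = 2 * (P * (a * y + r * x)) := by ring
        _ = 2 * (n * (a ^ 2 - a * b - a * c - n)) := by rw [hprod]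
        _ = _ := by ring
    have h3 := mul_left_cancel₀ hn h2
    have h4 : 0 ≤ a * y + r * x := by positivity
    linarith
  · -- x ≤ N + 2|P|
    have h1 : x ≤ |z ^ 2 - (r + x) ^ 2| := by
      have e1 : z ^ 2 - (r + x) ^ 2 = (z - (r + x)) * (z + (r + x)) := by ring
      rw [e1, abs_mul, abs_of_nonneg (by positivity : (0:ℤ) ≤ z + (r + x))]
      have h2 : 1 ≤ |z - (r + x)| := Int.one_le_abs (sub_ne_zero.mpr hzr)
      nlinarith
    have h2 : x ≤ 2 * |P| + N := by
      rw [hT] at h1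
      have : |2 * P - n| ≤ |2 * P| + |n| := abs_sub _ _
      rw [abs_mul, abs_two, ← hN] at this
      linarith
    -- |P| y ≤ 3 N c
    have h3 : |P| * y ≤ 3 * N * c := by
      have h4 : |P| * (a * y + r * x) ≤ N * (3 * (a * c)) := by
        have e1 : |P| * (a * y + r * x) = |P * (a * y + r * x)| := by
          rw [abs_mul, abs_of_nonneg (by positivity : (0:ℤ) ≤ a * y + r * x)]
        rw [e1, hprod, abs_mul, ← hN]
        apply mul_le_mul_of_nonneg_left _ (by linarith)
        rw [abs_le]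
        have h8 : a * b ≤ a * c := mul_le_mul_of_nonneg_left hbc.le ha.le
        have h9 : 0 ≤ a ^ 2 := sq_nonneg a
        have h10 : 0 < a * c := mul_pos ha hc0
        have h11 : 0 < a * b := mul_pos ha hb
        constructor
        · linarith
        · linarith
      have h5 : |P| * (a * y) ≤ |P| * (a * y + r * x) := by
        apply mul_le_mul_of_nonneg_left _ (abs_nonneg P)
        have := mul_nonneg hr0 hx0
        linarith
      have h6 : a * (|P| * y) ≤ a * (3 * N * c) := by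
        calc a * (|P| * y) = |P| * (a * y) := by ring
          _ ≤ N * (3 * (a * c)) := h5.trans h4
          _ = _ := by ring
      exact le_of_mul_le_mul_left h6 ha
    have hy2 : b * c ≤ 2 * y ^ 2 := by
      have : c ≤ b * c := by nlinarith
      rw [hy]; linarith
    -- P² b ≤ 18 N² c
    have h7 : P ^ 2 * b ≤ 18 * N ^ 2 * c := by
      have h8 : (|P| * y) ^ 2 ≤ (3 * N * c) ^ 2 := by
        apply pow_le_pow_left₀ (by positivity) h3
      rw [mul_pow, sq_abs] at h8
      have h9 : c * (P ^ 2 * b) ≤ c * (18 * N ^ 2 * c) := by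
        calc c * (P ^ 2 * b) = P ^ 2 * (b * c) := by ring
          _ ≤ P ^ 2 * (2 * y ^ 2) := mul_le_mul_of_nonneg_left hy2 (sq_nonneg P)
          _ = 2 * (P ^ 2 * y ^ 2) := by ring
          _ ≤ 2 * (3 * N * c) ^ 2 := by linarith
          _ = _ := by ring
      exact le_of_mul_le_mul_left h9 hc0
    have h10 : 32 * P ^ 2 ≤ c := by
      have h11 : P ^ 2 * (576 * N ^ 2) ≤ P ^ 2 * b := mul_le_mul_of_nonneg_left hbig (sq_nonneg P)
      have h12 : (18 * N ^ 2) * (32 * P ^ 2) ≤ (18 * N ^ 2) * c := by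
        calc (18 * N ^ 2) * (32 * P ^ 2) = P ^ 2 * (576 * N ^ 2) := by ring
          _ ≤ 18 * N ^ 2 * c := h11.trans h7
      exact le_of_mul_le_mul_left h12 (by positivity)
    have h13 : x ^ 2 ≤ (2 * |P| + N) ^ 2 := pow_le_pow_left₀ hx0 h2 2
    have h14 : (2 * |P| + N) ^ 2 ≤ 8 * P ^ 2 + 2 * N ^ 2 := by
      have h15 : |P| ^ 2 = P ^ 2 := sq_abs P
      have h16 : 0 ≤ (2 * |P| - N) ^ 2 := sq_nonneg _
      have h17 : (2 * |P| + N) ^ 2 + (2 * |P| - N) ^ 2 = 8 * |P| ^ 2 + 2 * N ^ 2 := by ring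
      rw [h15] at h17
      linarith
    linarith

/-- the key estimate: `√((pc+n)(pd+n)) - p √(cd+n)` is close to a quantity independent of `p` -/
theorem key (n N a b p c d S v : ℝ) (hN : N = |n|) (ha : 1 ≤ a) (hap : a ≤ p) (hpb : p ≤ b)
    (hpc : p ≤ c) (hcd : c ≤ d) (hNc : N ≤ c) (hN1 : 1 ≤ N)
    (hS0 : 0 ≤ S) (hv0 : 0 < v) (hS : S ^ 2 = (p * c + n) * (p * d + n)) (hv : v ^ 2 = c * d + n) :
    |(S - p * v) - n * (c + d) / (2 * v)| ≤ N * (N + b) / v + 3 * N ^ 2 * d ^ 2 / (a * v ^ 3) := by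
  have hp : 1 ≤ p := ha.trans hap
  have hp0 : 0 < p := by linarith
  have hd0 : 0 < d := by linarith
  have hN0 : 0 < N := by linarith
  have hnabs : |n| = N := hN.symm
  have hSp : 0 < S + p * v := by positivity
  have hE : (S - p * v) * (S + p * v) = n * (p * (c + d) + n - p ^ 2) := by
    have : (S - p * v) * (S + p * v) = S ^ 2 - p ^ 2 * v ^ 2 := by ring
    rw [this, hS, hv]; ring
  -- |E| ≤ 3 N d / v
  have hEabs : |S - p * v| * v ≤ 3 * N * d := by
    have h1 : |S - p * v| * (S + p * v) ≤ N * (p * (3 * d)) := by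
      have e1 : |S - p * v| * (S + p * v) = |(S - p * v) * (S + p * v)| := by
        rw [abs_mul, abs_of_pos hSp]
      rw [e1, hE, abs_mul, hnabs]
      apply mul_le_mul_of_nonneg_left _ hN0.le
      rw [abs_le]
      have h2 : -N ≤ n := by rw [hN]; exact neg_abs_le n
      have h3 : n ≤ N := by rw [hN]; exact le_abs_self n
      have h4 : p ^ 2 ≤ p * c := by nlinarith
      have h5 : N ≤ p * d := by nlinarith
      have h6 : p * c ≤ p * d := by nlinarith
      constructor
      · nlinarith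
      · nlinarith
    have h2 : |S - p * v| * (p * v) ≤ |S - p * v| * (S + p * v) := by
      apply mul_le_mul_of_nonneg_left _ (abs_nonneg _)
      linarith
    have h3 : p * (|S - p * v| * v) ≤ p * (3 * N * d) := by
      calc p * (|S - p * v| * v) = |S - p * v| * (p * v) := by ring
        _ ≤ N * (p * (3 * d)) := h2.trans h1
        _ = _ := by ring
    exact le_of_mul_le_mul_left h3 hp0
  set G : ℝ := (S - p * v) - n * (c + d) / (2 * v) with hG
  have hGeq : G * (2 * v * (S + p * v)) = n * (2 * v * (n - p ^ 2) - (c + d) * (S - p * v)) := by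
    have hv' : n * (c + d) / (2 * v) * (2 * v * (S + p * v)) = n * (c + d) * (S + p * v) := by
      field_simp
    have e1 : G * (2 * v * (S + p * v)) =
        2 * v * ((S - p * v) * (S + p * v)) - n * (c + d) / (2 * v) * (2 * v * (S + p * v)) := by
      rw [hG]; ring
    rw [e1, hv', hE]; ring
  have hGabs : |G| * (2 * p * v ^ 2) ≤ N * (2 * v * (N + p ^ 2) + 2 * d * |S - p * v|) := by
    have h1 : |G| * (2 * v * (S + p * v)) ≤ N * (2 * v * (N + p ^ 2) + 2 * d * |S - p * v|) := by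
      have e1 : |G| * (2 * v * (S + p * v)) = |G * (2 * v * (S + p * v))| := by
        rw [abs_mul, abs_of_pos (by positivity : 0 < 2 * v * (S + p * v))]
      rw [e1, hGeq, abs_mul, hnabs]
      apply mul_le_mul_of_nonneg_left _ hN0.le
      calc |2 * v * (n - p ^ 2) - (c + d) * (S - p * v)|
          ≤ |2 * v * (n - p ^ 2)| + |(c + d) * (S - p * v)| := abs_sub _ _
        _ = 2 * v * |n - p ^ 2| + (c + d) * |S - p * v| := by
            rw [abs_mul (2 * v), abs_mul (c + d), abs_of_pos (by positivity : 0 < 2 * v),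
              abs_of_pos (by linarith : 0 < c + d)]
        _ ≤ 2 * v * (N + p ^ 2) + 2 * d * |S - p * v| := by
            have h2 : |n - p ^ 2| ≤ N + p ^ 2 := by
              calc |n - p ^ 2| ≤ |n| + |p ^ 2| := abs_sub _ _
                _ = N + p ^ 2 := by rw [hnabs, abs_of_nonneg (sq_nonneg p)]
            have h3 : (c + d) * |S - p * v| ≤ 2 * d * |S - p * v| :=
              mul_le_mul_of_nonneg_right (by linarith) (abs_nonneg _)
            have h4 : 2 * v * |n - p ^ 2| ≤ 2 * v * (N + p ^ 2) :=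
              mul_le_mul_of_nonneg_left h2 (by positivity)
            linarith
    have h2 : |G| * (2 * p * v ^ 2) ≤ |G| * (2 * v * (S + p * v)) := by
      apply mul_le_mul_of_nonneg_left _ (abs_nonneg _)
      nlinarith [mul_nonneg hv0.le hS0]
    exact h2.trans h1
  -- conclude
  have h1 : |G| ≤ N * (N + p ^ 2) / (p * v) + 3 * N ^ 2 * d ^ 2 / (p * v ^ 3) := by
    have hden : 0 < 2 * p * v ^ 3 := by positivity
    have h2 : |G| * (2 * p * v ^ 3) ≤ 2 * N * (N + p ^ 2) * v ^ 2 + 6 * N ^ 2 * d ^ 2 := by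
      have h3 : |G| * (2 * p * v ^ 2) * v ≤
          N * (2 * v * (N + p ^ 2) + 2 * d * |S - p * v|) * v :=
        mul_le_mul_of_nonneg_right hGabs hv0.le
      have h4 : N * (2 * d) * (|S - p * v| * v) ≤ N * (2 * d) * (3 * N * d) :=
        mul_le_mul_of_nonneg_left hEabs (by positivity)
      nlinarith
    have h5 : N * (N + p ^ 2) / (p * v) + 3 * N ^ 2 * d ^ 2 / (p * v ^ 3) =
        (2 * N * (N + p ^ 2) * v ^ 2 + 6 * N ^ 2 * d ^ 2) / (2 * p * v ^ 3) := by
      field_simp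
      try ring
    rw [h5, le_div_iff₀ hden]
    exact h2
  have h6 : N * (N + p ^ 2) / (p * v) ≤ N * (N + b) / v := by
    rw [div_le_div_iff₀ (by positivity) hv0]
    have h7 : N + p ^ 2 ≤ (N + b) * p := by nlinarith
    have h8 : N * (N + p ^ 2) * v ≤ N * ((N + b) * p) * v := by
      apply mul_le_mul_of_nonneg_right _ hv0.le
      exact mul_le_mul_of_nonneg_left h7 hN0.le
    calc N * (N + p ^ 2) * v ≤ N * ((N + b) * p) * v := h8
      _ = N * (N + b) * (p * v) := by ring
  have h9 : 3 * N ^ 2 * d ^ 2 / (p * v ^ 3) ≤ 3 * N ^ 2 * d ^ 2 / (a * v ^ 3) := by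
    apply div_le_div_of_nonneg_left (by positivity) (by positivity)
    exact mul_le_mul_of_nonneg_right hap (by positivity)
  linarith

/-- the gap inequality for all quadruples whose third element is at least `4000 |n| ^ 6` -/
theorem gap (n N a b c d : ℤ) (hN : N = |n|) (hn : ¬ IsSquare n) (ha : 0 < a) (hab : a < b)
    (hbc : b < c) (hcd : c < d) (h1 : IsSquare (a * b + n)) (h2 : IsSquare (a * c + n))
    (h3 : IsSquare (a * d + n)) (h4 : IsSquare (b * c + n)) (h5 : IsSquare (b * d + n))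
    (h6 : IsSquare (c * d + n)) (hc : 4000 * N ^ 6 ≤ c) : a ^ 2 * c ^ 3 ≤ 1152 * N ^ 4 * d := by
  obtain ⟨r, hr0, hr⟩ := root h1
  obtain ⟨x, hx0, hx⟩ := root h2
  obtain ⟨z, hz0, hz⟩ := root h3
  obtain ⟨y, hy0, hy⟩ := root h4
  obtain ⟨w, hw0, hw⟩ := root h5
  obtain ⟨v, hv0, hv⟩ := root h6
  have hn0 : n ≠ 0 := by
    rintro rfl
    exact hn ⟨0, by ring⟩
  have hN1 : 1 ≤ N := by rw [hN]; exact Int.one_le_abs hn0
  have hnN : n ≤ N := by rw [hN]; exact le_abs_self n
  have hnN' : -N ≤ n := by rw [hN]; exact neg_abs_le n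
  have hp : ∀ k m : ℕ, k ≤ m → N ^ k ≤ N ^ m := fun k m h => pow_le_pow_right₀ hN1 h
  have hN16 : N ≤ N ^ 6 := by simpa using hp 1 6 (by norm_num)
  have hN26 : N ^ 2 ≤ N ^ 6 := hp 2 6 (by norm_num)
  have hN36 : N ^ 3 ≤ N ^ 6 := hp 3 6 (by norm_num)
  have hN06 : 1 ≤ N ^ 6 := by simpa using hp 0 6 (by norm_num)
  have hb0 : 0 < b := by linarith
  have hc0 : 0 < c := by linarith
  have hd0 : 0 < d := by linarith
  by_contra hcon
  push Not at hcon
  -- lower bound for v
  have hvbig : 4 * N * (N + b) < v := by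
    have hNb : N + b ≤ 2 * N * b := by nlinarith
    by_cases hreg : (d - b - c) ^ 2 = 4 * y ^ 2
    · have hbb := reg n N a b c d r x y z hN hn0 ha hab hbc hcd hr0 hx0 hy0 hz0 hr hx hy hz
        (by linarith) hreg
      have hcv : c ≤ v := by
        have e1 : c ^ 2 ≤ v ^ 2 := by
          rw [hv]
          have : c * (c + 1) ≤ c * d := mul_le_mul_of_nonneg_left (by linarith) hc0.le
          nlinarith
        exact (pow_le_pow_iff_left₀ hc0.le hv0 two_ne_zero).mp e1
      have e2 : 4 * N * (N + b) < 4 * N * (577 * N ^ 2) := by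
        apply mul_lt_mul_of_pos_left _ (by linarith)
        nlinarith
      have e3 : 4 * N * (577 * N ^ 2) = 2308 * N ^ 3 := by ring
      linarith
    · have hbcd := nonreg n N b c d y w v hN hn0 hb0 hbc hcd hy0 hw0 hv0 hy hw hv
        (by linarith) hreg
      have e1 : b * c ^ 2 ≤ N ^ 2 * (c * d) := by
        calc b * c ^ 2 = (b * c) * c := by ring
          _ ≤ (N ^ 2 * d) * c := mul_le_mul_of_nonneg_right hbcd hc0.le
          _ = _ := by ring
      have e2 : b * c ^ 2 - N ^ 3 ≤ N ^ 2 * v ^ 2 := by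
        have e3 : N ^ 2 * (-N) ≤ N ^ 2 * n := mul_le_mul_of_nonneg_left hnN' (by positivity)
        rw [hv]
        linarith
      have e4 : 64 * N ^ 6 * b ^ 2 + N ^ 3 < b * c ^ 2 := by
        have e5 : b * (4000 * N ^ 6 * c) ≤ b * c ^ 2 := by
          apply mul_le_mul_of_nonneg_left _ hb0.le
          rw [sq]
          exact mul_le_mul_of_nonneg_right hc hc0.le
        have e6 : N ^ 6 * b ^ 2 ≤ N ^ 6 * (b * c) := by
          apply mul_le_mul_of_nonneg_left _ (by positivity)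
          rw [sq]
          exact mul_le_mul_of_nonneg_left hbc.le hb0.le
        have e7 : N ^ 6 * 1 ≤ N ^ 6 * (b * c) := by
          apply mul_le_mul_of_nonneg_left _ (by positivity)
          nlinarith
        have e8 : b * (4000 * N ^ 6 * c) = 4000 * (N ^ 6 * (b * c)) := by ring
        linarith
      have e9 : N ^ 2 * (4 * N * (N + b)) ^ 2 ≤ 64 * N ^ 6 * b ^ 2 := by
        have e10 : (N + b) ^ 2 ≤ (2 * N * b) ^ 2 := pow_le_pow_left₀ (by linarith) hNb 2
        calc N ^ 2 * (4 * N * (N + b)) ^ 2 = 16 * N ^ 4 * (N + b) ^ 2 := by ring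
          _ ≤ 16 * N ^ 4 * (2 * N * b) ^ 2 := mul_le_mul_of_nonneg_left e10 (by positivity)
          _ = _ := by ring
      have e11 : N ^ 2 * (4 * N * (N + b)) ^ 2 < N ^ 2 * v ^ 2 := by linarith
      have e12 : (4 * N * (N + b)) ^ 2 < v ^ 2 := lt_of_mul_lt_mul_left e11 (by positivity)
      exact lt_of_pow_lt_pow_left₀ 2 hv0 e12
  have hvpos : 0 < v := by
    have : 0 < 4 * N * (N + b) := by positivity
    linarith
  -- 12 N² d² < a v³
  have hav : 12 * N ^ 2 * d ^ 2 < a * v ^ 3 := by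
    have e1 : c * d ≤ 2 * v ^ 2 := by
      rw [hv]
      have : c ≤ c * d := by nlinarith
      linarith
    have e2 : (c * d) ^ 3 ≤ (2 * v ^ 2) ^ 3 := pow_le_pow_left₀ (by positivity) e1 3
    have e3 : 1152 * N ^ 4 * d * d ^ 3 < a ^ 2 * c ^ 3 * d ^ 3 :=
      mul_lt_mul_of_pos_right hcon (by positivity)
    have e4 : a ^ 2 * (c * d) ^ 3 ≤ a ^ 2 * (2 * v ^ 2) ^ 3 :=
      mul_le_mul_of_nonneg_left e2 (by positivity)
    have e5 : (12 * N ^ 2 * d ^ 2) ^ 2 < (a * v ^ 3) ^ 2 := by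
      have f1 : 8 * (12 * N ^ 2 * d ^ 2) ^ 2 = 1152 * N ^ 4 * d * d ^ 3 := by ring
      have f2 : 8 * (a * v ^ 3) ^ 2 = a ^ 2 * (2 * v ^ 2) ^ 3 := by ring
      have f3 : a ^ 2 * c ^ 3 * d ^ 3 = a ^ 2 * (c * d) ^ 3 := by ring
      linarith
    exact lt_of_pow_lt_pow_left₀ 2 (by positivity) e5
  -- the two integers coincide
  have hEE : x * z - a * v = y * w - b * v := by
    have hNr : (N : ℝ) = |(n : ℝ)| := by rw [hN]; push_cast; rfl
    have ha' : (1 : ℝ) ≤ a := by exact_mod_cast ha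
    have hab' : (a : ℝ) ≤ b := by exact_mod_cast hab.le
    have hbc' : (b : ℝ) ≤ c := by exact_mod_cast hbc.le
    have hcd' : (c : ℝ) ≤ d := by exact_mod_cast hcd.le
    have hNc' : (N : ℝ) ≤ c := by
      have : N ≤ c := by linarith
      exact_mod_cast this
    have hN1' : (1 : ℝ) ≤ N := by exact_mod_cast hN1
    have hv' : (0 : ℝ) < v := by exact_mod_cast hvpos
    have hvv : (v : ℝ) ^ 2 = c * d + n := by exact_mod_cast hv
    have hxz : ((x * z : ℤ) : ℝ) ^ 2 = ((a : ℝ) * c + n) * (a * d + n) := by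
      have : (x * z) ^ 2 = (a * c + n) * (a * d + n) := by rw [mul_pow, hx, hz]
      exact_mod_cast this
    have hyw : ((y * w : ℤ) : ℝ) ^ 2 = ((b : ℝ) * c + n) * (b * d + n) := by
      have : (y * w) ^ 2 = (b * c + n) * (b * d + n) := by rw [mul_pow, hy, hw]
      exact_mod_cast this
    have hxz0 : (0 : ℝ) ≤ ((x * z : ℤ) : ℝ) := by
      have : 0 ≤ x * z := by positivity
      exact_mod_cast this
    have hyw0 : (0 : ℝ) ≤ ((y * w : ℤ) : ℝ) := by
      have : 0 ≤ y * w := by positivity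
      exact_mod_cast this
    have k1 := key (n : ℝ) N a b a c d ((x * z : ℤ) : ℝ) v hNr ha' le_rfl hab'
      (hab'.trans hbc') hcd' hNc' hN1' hxz0 hv' hxz hvv
    have k2 := key (n : ℝ) N a b b c d ((y * w : ℤ) : ℝ) v hNr ha' hab' le_rfl
      hbc' hcd' hNc' hN1' hyw0 hv' hyw hvv
    have q1 : (N : ℝ) * (N + b) / v < 1 / 4 := by
      rw [div_lt_div_iff₀ hv' (by norm_num)]
      have : (4 * N * (N + b) : ℝ) < v := by exact_mod_cast hvbig
      linarith
    have q2 : 3 * (N : ℝ) ^ 2 * d ^ 2 / (a * v ^ 3) < 1 / 4 := by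
      have ha0 : (0 : ℝ) < a := by linarith
      rw [div_lt_div_iff₀ (by positivity) (by norm_num)]
      have : (12 * N ^ 2 * d ^ 2 : ℝ) < a * v ^ 3 := by exact_mod_cast hav
      linarith
    have q3 : |(((x * z : ℤ) : ℝ) - a * v) - (((y * w : ℤ) : ℝ) - b * v)| < 1 := by
      rw [abs_le] at k1 k2
      rw [abs_lt]
      constructor
      · linarith [k1.1, k1.2, k2.1, k2.2]
      · linarith [k1.1, k1.2, k2.1, k2.2]
    have q4 : |(x * z - a * v) - (y * w - b * v)| < 1 := by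
      have : (((|(x * z - a * v) - (y * w - b * v)| : ℤ)) : ℝ) < ((1 : ℤ) : ℝ) := by
        push_cast
        push_cast at q3
        exact q3
      exact_mod_cast this
    have q5 := Int.abs_lt_one_iff.mp q4
    linarith
  -- algebra
  set E : ℤ := x * z - a * v with hE
  have g1 : E * (E + 2 * a * v) = n * (a * (c + d) + n - a ^ 2) := by
    have e1 : E * (E + 2 * a * v) = x ^ 2 * z ^ 2 - a ^ 2 * v ^ 2 := by rw [hE]; ring
    rw [e1, hx, hz, hv]; ring
  have g2 : E * (E + 2 * b * v) = n * (b * (c + d) + n - b ^ 2) := by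
    have e1 : E * (E + 2 * b * v) = y ^ 2 * w ^ 2 - b ^ 2 * v ^ 2 := by rw [hEE]; ring
    rw [e1, hy, hw, hv]; ring
  have g3 : E ^ 2 = n * r ^ 2 := by
    have e1 : (b - a) * E ^ 2 = (b - a) * (n * r ^ 2) := by
      rw [hr]
      linear_combination b * g1 - a * g2
    exact mul_left_cancel₀ (by linarith : b - a ≠ 0) e1
  by_cases hr00 : r = 0
  · have e1 : E = 0 := by
      rw [hr00] at g3
      have : E ^ 2 = 0 := by rw [g3]; ring
      exact pow_eq_zero_iff (by norm_num) |>.mp this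
    rw [e1, zero_mul] at g1
    have e2 := (mul_eq_zero.mp g1.symm).resolve_left hn0
    have e3 : 1 * c ≤ a * c := mul_le_mul_of_nonneg_right (by linarith) hc0.le
    have e4 : a * a ≤ a * d := mul_le_mul_of_nonneg_left (by linarith) ha.le
    have e5 : a ^ 2 = a * a := sq a
    linarith
  · have e1 : r ∣ E := by
      have : r ^ 2 ∣ E ^ 2 := ⟨n, by rw [g3]; ring⟩
      exact (Int.pow_dvd_pow_iff (by norm_num)).mp this
    obtain ⟨k, hk⟩ := e1
    apply hn
    refine ⟨k, ?_⟩
    have e2 : r ^ 2 * n = r ^ 2 * (k * k) := by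
      rw [hk] at g3
      linear_combination -g3
    exact mul_left_cancel₀ (pow_ne_zero 2 hr00) e2

/-- For every integer `n` that is not a perfect square, only finitely many `D(n)`-quadruples
`a < b < c < d` satisfy `1152 n ^ 4 d < a ^ 2 c ^ 3`. -/
theorem result (n : ℤ) (hn : ¬ IsSquare n) :
    Set.Finite {q : ℕ × ℕ × ℕ × ℕ | DQuadruple n q.1 q.2.1 q.2.2.1 q.2.2.2 ∧
      1152 * n ^ 4 * (q.2.2.2 : ℤ) < (q.1 : ℤ) ^ 2 * (q.2.2.1 : ℤ) ^ 3} := by
  have hn0 : n ≠ 0 := by
    rintro rfl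
    exact hn ⟨0, by ring⟩
  set C : ℕ := 4000 * n.natAbs ^ 6 with hC
  apply Set.Finite.subset ((Set.finite_Iio C).prod ((Set.finite_Iio C).prod
    ((Set.finite_Iio C).prod (Set.finite_Iio (C ^ 5)))))
  rintro ⟨a, b, c, d⟩ ⟨⟨ha, hab, hbc, hcd, h1, h2, h3, h4, h5, h6⟩, hlt⟩
  simp only at ha hab hbc hcd h1 h2 h3 h4 h5 h6 hlt
  have habs : ((n.natAbs : ℕ) : ℤ) = |n| := Int.natCast_natAbs n
  have h4n : |n| ^ 4 = n ^ 4 := by
    rw [← abs_pow, abs_of_nonneg (by positivity)]
  have hcC : c < C := by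
    by_contra hge
    push Not at hge
    have hge' : 4000 * |n| ^ 6 ≤ (c : ℤ) := by
      have : ((C : ℕ) : ℤ) ≤ (c : ℤ) := by exact_mod_cast hge
      rw [hC] at this
      push_cast at this
      exact this
    have := gap n |n| a b c d rfl hn (by exact_mod_cast ha) (by exact_mod_cast hab)
      (by exact_mod_cast hbc) (by exact_mod_cast hcd) h1 h2 h3 h4 h5 h6 hge'
    rw [h4n] at this
    linarith
  have hd : d < C ^ 5 := by
    have hpos : (1 : ℤ) ≤ n ^ 4 := by
      have : 0 < n ^ 4 := by positivity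
      linarith
    have e1 : (d : ℤ) < (a : ℤ) ^ 2 * (c : ℤ) ^ 3 := by
      have : (d : ℤ) ≤ 1152 * n ^ 4 * (d : ℤ) := by nlinarith [Int.natCast_nonneg d]
      linarith
    have e2 : d < a ^ 2 * c ^ 3 := by exact_mod_cast e1
    have e3 : a ^ 2 * c ^ 3 ≤ C ^ 2 * C ^ 3 := by
      apply Nat.mul_le_mul
      · exact Nat.pow_le_pow_left (by omega) 2
      · exact Nat.pow_le_pow_left (by omega) 3
    calc d < a ^ 2 * c ^ 3 := e2
      _ ≤ C ^ 2 * C ^ 3 := e3
      _ = C ^ 5 := by ring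
  simp only [Set.mem_prod, Set.mem_Iio]
  refine ⟨by omega, by omega, hcC, hd⟩

end Pool.Agent.Results.MP_603295_nt.CubicGap
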